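import Pool.Agent.UCQ.Defs
import Pool.Agent.QMX.Main

set_option autoImplicit false

/-!
# UCQ: from the modules QMX
-/

namespace Pool.Agent.UCQ

open MeasureTheory Set Filter Topology
open scoped ENNReal

theorem P_eq (N : ℕ) (a : ℤ → ℂ) (θ x : ℝ) : P N a θ x = QMX.S N a θ x := by
  unfold P QMX.S
  refine Finset.sum_congr rfl fun n _ => ?_
  congr 2
  push_cast
  ring

theorem l2_eq (N : ℕ) (a : ℤ → ℂ) : l2 N a = QMX.nrm N a := rfl

theorem L4_eq {G : Type} [NormedAddCommGroup G] (F : ℝ → G) : L4 F = QMX.L4 F := by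
  unfold L4 QMX.L4
  rw [Measure.restrict_congr_set Ioo_ae_eq_Icc]

/-- the uniform bound in the notation of `QMX` -/
theorem uniform_iff (s : ℝ) : Uniform s ↔ ∃ C : ℝ, ∀ φ : ℝ → ℝ, Measurable φ → ∀ N : ℕ, 1 ≤ N →
    ∀ a : ℤ → ℂ, QMX.L4 (fun x => QMX.S N a (φ x) x) ≤
      ENNReal.ofReal (C * (N : ℝ) ^ s * QMX.nrm N a) := by
  constructor
  · rintro ⟨C, hC⟩
    refine ⟨C, fun φ hφ N hN a => ?_⟩
    have h := hC (fun x => Int.fract (φ x)) (measurable_fract.comp hφ)
      (fun x => ⟨Int.fract_nonneg _, (Int.fract_lt_one _).le⟩) N hN a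
    simp only [L4_eq, P_eq, QMX.S_fract, l2_eq] at h
    exact h
  · rintro ⟨C, hC⟩
    refine ⟨C, fun φ hφ _ N hN a => ?_⟩
    simp only [L4_eq, P_eq, l2_eq]
    exact hC φ hφ N hN a

theorem maximal_iff (s : ℝ) : Maximal s ↔ ∃ C : ℝ, ∀ N : ℕ, 1 ≤ N → ∀ a : ℤ → ℂ,
    QMX.L4 (fun x => ⨆ c : ℝ, ‖QMX.S N a c x‖) ≤
      ENNReal.ofReal (C * (N : ℝ) ^ s * QMX.nrm N a) := by
  unfold Maximal
  simp only [L4_eq, P_eq, l2_eq]

/-- the constant does not depend on the phase -/
theorem each_iff_uniform (s : ℝ) : Each s ↔ Uniform s := by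
  constructor
  · intro h
    rw [uniform_iff]
    refine QMX.uniform_of fun φ hφ hφ' => ?_
    obtain ⟨C, hC⟩ := h φ hφ hφ'
    refine ⟨C, fun N hN a => ?_⟩
    have := hC N hN a
    simp only [L4_eq, P_eq, l2_eq] at this
    exact this
  · rintro ⟨C, hC⟩ φ hφ hφ'
    exact ⟨C, hC φ hφ hφ'⟩

theorem not_uniform {s : ℝ} (hs : s < 0) : ¬ Uniform s := by
  rw [uniform_iff]
  rintro ⟨C, hC⟩
  have hS : ∀ (N : ℕ) (x : ℝ), QMX.S N (Pi.single 0 1) 0 x = 1 := by
    intro N x
    unfold QMX.S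
    rw [Finset.sum_eq_single (0 : ℤ)]
    · simp
    · intro n _ hn
      simp [hn]
    · intro h
      exact absurd (Finset.mem_Icc.2 ⟨by simp, by simp⟩) h
  have hn : ∀ N : ℕ, QMX.nrm N (Pi.single 0 1) = 1 := by
    intro N
    unfold QMX.nrm
    rw [Finset.sum_eq_single (0 : ℤ)]
    · simp
    · intro n _ hn
      simp [hn]
    · intro h
      exact absurd (Finset.mem_Icc.2 ⟨by simp, by simp⟩) h
  have h1 : ∀ N : ℕ, 1 ≤ N → (1 : ℝ) ≤ C * (N : ℝ) ^ s := by
    intro N hN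
    have h2 := hC (fun _ => 0) measurable_const N hN (Pi.single 0 1)
    simp only [hS, hn, mul_one] at h2
    rw [QMX.L4_le_iff] at h2
    by_contra hcon
    rw [not_le] at hcon
    have h3 : ENNReal.ofReal (C * (N : ℝ) ^ s) ≤ 1 := by
      rw [← ENNReal.ofReal_one]
      exact ENNReal.ofReal_le_ofReal hcon.le
    have h4 : ENNReal.ofReal (C * (N : ℝ) ^ s) ^ (4 : ℝ) ≤ 1 := ENNReal.rpow_le_one h3 (by norm_num)
    have h5 : (2 : ENNReal) ≤ 1 := by
      refine le_trans (le_of_eq ?_) (h2.trans h4)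
      simp only [enorm_one, ENNReal.one_rpow, lintegral_const, MeasurableSet.univ,
        Measure.restrict_apply, Set.univ_inter, Real.volume_Icc, one_mul]
      norm_num
    exact absurd h5 (by norm_num)
  have h6 : Tendsto (fun N : ℕ => C * (N : ℝ) ^ s) atTop (𝓝 (C * 0)) := by
    refine Tendsto.const_mul C ?_
    have := (tendsto_rpow_neg_atTop (y := -s) (by linarith)).comp tendsto_natCast_atTop_atTop
    simpa [Function.comp_def] using this
  rw [mul_zero] at h6
  have h7 := h6.eventually_lt_const (show (0 : ℝ) < 1 by norm_num)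
  obtain ⟨N, hN1, hN2⟩ := (h7.and (eventually_ge_atTop 1)).exists
  linarith [h1 N hN2]

/-- the uniform bound is the bound for the maximal function -/
theorem uniform_iff_maximal (s : ℝ) : Uniform s ↔ Maximal s := by
  rcases le_or_gt 0 s with hs | hs
  · rw [uniform_iff, maximal_iff]
    exact ⟨QMX.maximal_of hs, QMX.uniform_of_maximal⟩
  · refine ⟨fun h => absurd h (not_uniform hs), fun h => ?_⟩
    rw [uniform_iff]
    rw [maximal_iff] at h
    exact QMX.uniform_of_maximal h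

end Pool.Agent.UCQ
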