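import Mathlib

set_option autoImplicit false

/-!
# UCQ: quadratic exponential sums with measurable phase, uniformity of the constant (MP_1e9ba9_an)
-/

namespace Pool.Agent.UCQ

open MeasureTheory Set
open scoped ENNReal

/-- The sum `∑ a_n e(n θ + n² x)`, `-N ≤ n ≤ N`, `e(t) = exp(2 π i t)`. -/
noncomputable def P (N : ℕ) (a : ℤ → ℂ) (θ x : ℝ) : ℂ :=
  ∑ n ∈ Finset.Icc (-(N : ℤ)) N,
    a n * Complex.exp (2 * Real.pi * Complex.I * ((n : ℂ) * θ + (n : ℂ) ^ 2 * x))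

/-- `‖a‖_2 = (∑ |a_n| ^ 2)^(1/2)`, `-N ≤ n ≤ N`. -/
noncomputable def l2 (N : ℕ) (a : ℤ → ℂ) : ℝ :=
  Real.sqrt (∑ n ∈ Finset.Icc (-(N : ℤ)) N, ‖a n‖ ^ 2)

/-- The norm in `L⁴(-1, 1)`. -/
noncomputable def L4 {G : Type} [NormedAddCommGroup G] (F : ℝ → G) : ℝ≥0∞ :=
  eLpNorm F 4 (volume.restrict (Ioo (-1 : ℝ) 1))

/-- For each measurable `φ : ℝ → [0,1]` the inequality `‖S_N‖_4 ≤ C N^s ‖a‖_2`, with a constant `C`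
that may depend on `φ`. -/
def Each (s : ℝ) : Prop :=
  ∀ φ : ℝ → ℝ, Measurable φ → (∀ x, φ x ∈ Icc (0 : ℝ) 1) → ∃ C : ℝ, ∀ N : ℕ, 1 ≤ N →
    ∀ a : ℤ → ℂ, L4 (fun x => P N a (φ x) x) ≤ ENNReal.ofReal (C * (N : ℝ) ^ s * l2 N a)

/-- The same with one constant for all measurable `φ`. -/
def Uniform (s : ℝ) : Prop :=
  ∃ C : ℝ, ∀ φ : ℝ → ℝ, Measurable φ → (∀ x, φ x ∈ Icc (0 : ℝ) 1) → ∀ N : ℕ, 1 ≤ N →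
    ∀ a : ℤ → ℂ, L4 (fun x => P N a (φ x) x) ≤ ENNReal.ofReal (C * (N : ℝ) ^ s * l2 N a)

/-- The maximal inequality `‖sup_θ |∑ a_n e(n θ + n² x)|‖_4 ≤ C N^s ‖a‖_2`. -/
def Maximal (s : ℝ) : Prop :=
  ∃ C : ℝ, ∀ N : ℕ, 1 ≤ N → ∀ a : ℤ → ℂ,
    L4 (fun x => ⨆ θ : ℝ, ‖P N a θ x‖) ≤ ENNReal.ofReal (C * (N : ℝ) ^ s * l2 N a)

end Pool.Agent.UCQ
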