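import Pool.Agent.UCQ.Defs

set_option autoImplicit false

/-!
# UCQ: quadratic exponential sums with measurable phase, uniformity of the constant (MP_1e9ba9_an)
-/

namespace Pool.Agent.UCQ

open MeasureTheory Set
open scoped ENNReal

theorem P_int (N : ℕ) (a : ℤ → ℂ) (θ x : ℝ) (k : ℤ) : P N a θ (x + k) = P N a θ x := by
  unfold P
  refine Finset.sum_congr rfl fun n _ => ?_
  congr 1
  have e : 2 * Real.pi * Complex.I * ((n : ℂ) * θ + (n : ℂ) ^ 2 * ((x + k : ℝ) : ℂ)) =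
      2 * Real.pi * Complex.I * ((n : ℂ) * θ + (n : ℂ) ^ 2 * x) +
        ((n ^ 2 * k : ℤ) : ℂ) * (2 * Real.pi * Complex.I) := by
    push_cast
    ring
  rw [e, Complex.exp_add, Complex.exp_int_mul_two_pi_mul_I, mul_one]

/-- the modulated coefficients `a_n e(n² y)` -/
noncomputable def md (a : ℤ → ℂ) (y : ℝ) (n : ℤ) : ℂ :=
  a n * Complex.exp (2 * Real.pi * Complex.I * ((n : ℂ) ^ 2 * y))

theorem P_md (N : ℕ) (a : ℤ → ℂ) (θ x y : ℝ) : P N (md a y) θ x = P N a θ (x + y) := by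
  unfold P md
  refine Finset.sum_congr rfl fun n _ => ?_
  rw [mul_assoc, ← Complex.exp_add]
  congr 2
  push_cast
  ring

theorem norm_e (u : ℝ) : ‖Complex.exp (2 * Real.pi * Complex.I * (u : ℂ))‖ = 1 := by
  have e : 2 * Real.pi * Complex.I * (u : ℂ) = ((2 * Real.pi * u : ℝ) : ℂ) * Complex.I := by
    push_cast
    ring
  rw [e, Complex.norm_exp_ofReal_mul_I]

theorem norm_md (a : ℤ → ℂ) (y : ℝ) (n : ℤ) : ‖md a y n‖ = ‖a n‖ := by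
  unfold md
  have h := norm_e ((n : ℝ) ^ 2 * y)
  push_cast at h
  rw [norm_mul, h, mul_one]

theorem P_cont (N : ℕ) (a : ℤ → ℂ) : Continuous fun p : ℝ × ℝ => P N a p.1 p.2 := by
  unfold P
  fun_prop

theorem P_meas (N : ℕ) (a : ℤ → ℂ) {φ g : ℝ → ℝ} (hφ : Measurable φ) (hg : Measurable g) :
    Measurable fun x => P N a (φ x) (g x) := by
  have h := Measurable.comp (g := fun p : ℝ × ℝ => P N a p.1 p.2) (f := fun x => (φ x, g x))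
    (P_cont N a).measurable (hφ.prodMk hg)
  exact h

theorem P_bd (N : ℕ) (a : ℤ → ℂ) (θ x : ℝ) :
    ‖P N a θ x‖ ≤ ∑ n ∈ Finset.Icc (-(N : ℤ)) N, ‖a n‖ := by
  unfold P
  refine (norm_sum_le _ _).trans (Finset.sum_le_sum fun n _ => ?_)
  have h := norm_e ((n : ℝ) * θ + (n : ℝ) ^ 2 * x)
  push_cast at h
  rw [norm_mul, h, mul_one]

/-- a translate which has its share of the integral on a given set -/
theorem exists_shift {T : ℝ → ℝ≥0∞} (hT : Measurable T) (hper : ∀ x, T (x + 1) = T x)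
    (B : ℝ≥0∞) (hB : B ≠ ⊤) (hTB : ∀ x, T x ≤ B) {E : Set ℝ} (hEf : volume E ≠ ⊤) :
    ∃ y : ℝ, volume E * ∫⁻ x in Ico (0 : ℝ) 1, T x ≤ ∫⁻ x in E, T (x + y) := by
  have hIoc : ∫⁻ x in Ico (0 : ℝ) 1, T x = ∫⁻ x in Ioc (0 : ℝ) 1, T x :=
    setLIntegral_congr Ico_ae_eq_Ioc
  have hint : ∀ (k : ℤ) (x : ℝ), T (x + k) = T x := by
    intro k x
    have h : Function.Periodic T 1 := hper
    have := h.int_mul k x
    rw [mul_one] at this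
    exact this
  have h1 : ∀ x : ℝ, ∫⁻ y in Ioc (0 : ℝ) 1, T (x + y) = ∫⁻ y in Ioc (0 : ℝ) 1, T y := by
    intro x
    have e1 : ∫⁻ y in Ioc (0 : ℝ) 1, T (x + y) = ∫⁻ u in Ioc x (x + 1), T u := by
      have := (measurePreserving_add_left (volume : Measure ℝ) x).setLIntegral_comp_preimage_emb
        (MeasurableEquiv.addLeft x).measurableEmbedding T (Ioc x (x + 1))
      rw [← this]
      congr 2
      ext y
      simp
    have e2 := (isAddFundamentalDomain_Ioc (one_pos : (0 : ℝ) < 1) x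
      (volume : Measure ℝ)).setLIntegral_eq
      (isAddFundamentalDomain_Ioc (one_pos : (0 : ℝ) < 1) 0 (volume : Measure ℝ)) T (by
        rintro ⟨g, hg⟩ u
        obtain ⟨k, hk⟩ := AddSubgroup.mem_zmultiples_iff.1 hg
        have e3 : (⟨g, hg⟩ : AddSubgroup.zmultiples (1 : ℝ)) +ᵥ u = u + k := by
          have : g = k := by rw [← hk]; simp
          rw [add_comm u]
          show g + u = k + u
          rw [this]
        rw [e3, hint])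
    rw [e1, e2, zero_add]
  have hmeas : Measurable (Function.uncurry fun (y x : ℝ) => T (x + y)) :=
    hT.comp (measurable_snd.add measurable_fst)
  have h2 : ∫⁻ y in Ioc (0 : ℝ) 1, ∫⁻ x in E, T (x + y) =
      volume E * ∫⁻ x in Ico (0 : ℝ) 1, T x := by
    rw [lintegral_lintegral_swap hmeas.aemeasurable]
    simp_rw [h1]
    rw [lintegral_const, hIoc, Measure.restrict_apply_univ, mul_comm]
  have hfin : volume E * ∫⁻ x in Ico (0 : ℝ) 1, T x ≠ ⊤ := by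
    refine ENNReal.mul_ne_top hEf (ne_top_of_le_ne_top hB ?_)
    calc ∫⁻ x in Ico (0 : ℝ) 1, T x ≤ ∫⁻ _x in Ico (0 : ℝ) 1, B := lintegral_mono fun x => hTB x
      _ = B := by rw [setLIntegral_const, Real.volume_Ico]; norm_num
  have : IsProbabilityMeasure ((volume : Measure ℝ).restrict (Ioc (0 : ℝ) 1)) :=
    ⟨by rw [Measure.restrict_apply_univ, Real.volume_Ioc]; norm_num⟩
  obtain ⟨y, hy⟩ := exists_lintegral_le (μ := (volume : Measure ℝ).restrict (Ioc (0 : ℝ) 1))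
    (f := fun y => ∫⁻ x in E, T (x + y)) (by rw [h2]; exact hfin)
  rw [h2] at hy
  exact ⟨y, hy⟩

/-- the periodic extension of one half of `φ` -/
theorem half (N : ℕ) (a : ℤ → ℂ) {φ : ℝ → ℝ} (hφ : Measurable φ)
    (hφ1 : ∀ x, φ x ∈ Icc (0 : ℝ) 1) :
    ∃ ψ : ℝ → ℝ, Measurable ψ ∧ (∀ x, ψ x ∈ Icc (0 : ℝ) 1) ∧ (∀ x, ψ (x + 1) = ψ x) ∧
      ∫⁻ x in Ioo (-1 : ℝ) 1, ‖P N a (φ x) x‖ₑ ^ 4 ≤
        2 * ∫⁻ x in Ico (0 : ℝ) 1, ‖P N a (ψ x) x‖ₑ ^ 4 := by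
  have hψ : ∀ h : ℝ, Measurable fun x : ℝ => φ (h + Int.fract x) := fun h =>
    hφ.comp (measurable_const.add measurable_fract)
  have key : ∀ h : ℤ, ∫⁻ x in Ico (0 : ℝ) 1, ‖P N a (φ (h + Int.fract x)) x‖ₑ ^ 4 =
      ∫⁻ u in Ico (h : ℝ) (h + 1), ‖P N a (φ u) u‖ₑ ^ 4 := by
    intro h
    have e1 : ∫⁻ x in Ico (0 : ℝ) 1, ‖P N a (φ (h + Int.fract x)) x‖ₑ ^ 4 =
        ∫⁻ x in Ico (0 : ℝ) 1, ‖P N a (φ (h + x)) (h + x)‖ₑ ^ 4 := by
      refine setLIntegral_congr_fun measurableSet_Ico fun x hx => ?_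
      rw [Int.fract_eq_self.2 hx, add_comm (h : ℝ) x, P_int]
    rw [e1]
    have := (measurePreserving_add_left (volume : Measure ℝ) (h : ℝ)).setLIntegral_comp_preimage_emb
      (MeasurableEquiv.addLeft (h : ℝ)).measurableEmbedding
      (fun u => ‖P N a (φ u) u‖ₑ ^ 4) (Ico (h : ℝ) (h + 1))
    rw [← this]
    congr 2
    ext y
    simp
  have hsum : ∫⁻ x in Ioo (-1 : ℝ) 1, ‖P N a (φ x) x‖ₑ ^ 4 ≤
      (∫⁻ x in Ico (0 : ℝ) 1, ‖P N a (φ (((-1 : ℤ) : ℝ) + Int.fract x)) x‖ₑ ^ 4) +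
      (∫⁻ x in Ico (0 : ℝ) 1, ‖P N a (φ (((0 : ℤ) : ℝ) + Int.fract x)) x‖ₑ ^ 4) := by
    rw [key, key]
    refine le_trans (lintegral_mono_set ?_) (lintegral_union_le _ _ _)
    intro x hx
    rw [mem_Ioo] at hx
    rw [mem_union, mem_Ico, mem_Ico]
    push_cast
    by_cases h : x < 0
    · left; constructor <;> linarith
    · right; constructor <;> linarith
  have hper : ∀ (h : ℝ) (x : ℝ), φ (h + Int.fract (x + 1)) = φ (h + Int.fract x) := by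
    intro h x
    rw [Int.fract_add_one]
  rcases le_total (∫⁻ x in Ico (0 : ℝ) 1, ‖P N a (φ (((-1 : ℤ) : ℝ) + Int.fract x)) x‖ₑ ^ 4)
      (∫⁻ x in Ico (0 : ℝ) 1, ‖P N a (φ (((0 : ℤ) : ℝ) + Int.fract x)) x‖ₑ ^ 4) with h | h
  · refine ⟨fun x => φ (((0 : ℤ) : ℝ) + Int.fract x), hψ _, fun x => hφ1 _, hper _, ?_⟩
    rw [two_mul]
    exact hsum.trans (add_le_add h le_rfl)
  · refine ⟨fun x => φ (((-1 : ℤ) : ℝ) + Int.fract x), hψ _, fun x => hφ1 _, hper _, ?_⟩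
    rw [two_mul]
    exact hsum.trans (add_le_add le_rfl h)

/-- one piece: the share of the integral can be moved to a given set `E` -/
theorem piece (N : ℕ) (a : ℤ → ℂ) {φ : ℝ → ℝ} (hφ : Measurable φ)
    (hφ1 : ∀ x, φ x ∈ Icc (0 : ℝ) 1) {E : Set ℝ} (hEf : volume E ≠ ⊤) :
    ∃ (ψ : ℝ → ℝ) (b : ℤ → ℂ), Measurable ψ ∧ (∀ x, ψ x ∈ Icc (0 : ℝ) 1) ∧
      (∀ n, ‖b n‖ = ‖a n‖) ∧
      volume E * ∫⁻ x in Ioo (-1 : ℝ) 1, ‖P N a (φ x) x‖ₑ ^ 4 ≤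
        2 * ∫⁻ x in E, ‖P N b (ψ x) x‖ₑ ^ 4 := by
  obtain ⟨ψ, h1, h2, h3, h4⟩ := half N a hφ hφ1
  obtain ⟨y, hy⟩ := exists_shift (T := fun x => ‖P N a (ψ x) x‖ₑ ^ 4)
    ((P_meas N a h1 measurable_id).enorm.pow_const 4)
    (fun x => by
      have := P_int N a (ψ x) x 1
      rw [Int.cast_one] at this
      rw [h3, this])
    (ENNReal.ofReal (∑ n ∈ Finset.Icc (-(N : ℤ)) N, ‖a n‖) ^ 4)
    (ENNReal.pow_ne_top ENNReal.ofReal_ne_top)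
    (fun x => by
      refine pow_le_pow_left' ?_ 4
      rw [← ofReal_norm]
      exact ENNReal.ofReal_le_ofReal (P_bd N a _ _))
    hEf
  refine ⟨fun x => ψ (x + y), md a y, h1.comp (measurable_id.add_const y), fun x => h2 _,
    norm_md a y, ?_⟩
  have e : ∫⁻ x in E, ‖P N (md a y) (ψ (x + y)) x‖ₑ ^ 4 =
      ∫⁻ x in E, ‖P N a (ψ (x + y)) (x + y)‖ₑ ^ 4 := by
    congr 1
    funext x
    rw [P_md]
  rw [e]
  calc volume E * ∫⁻ x in Ioo (-1 : ℝ) 1, ‖P N a (φ x) x‖ₑ ^ 4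
      ≤ volume E * (2 * ∫⁻ x in Ico (0 : ℝ) 1, ‖P N a (ψ x) x‖ₑ ^ 4) := mul_le_mul_right h4 _
    _ = 2 * (volume E * ∫⁻ x in Ico (0 : ℝ) 1, ‖P N a (ψ x) x‖ₑ ^ 4) := by ring
    _ ≤ _ := mul_le_mul_right hy _

theorem L4_pow {G : Type} [NormedAddCommGroup G] (F : ℝ → G) :
    L4 F ^ 4 = ∫⁻ x in Ioo (-1 : ℝ) 1, ‖F x‖ₑ ^ 4 := by
  unfold L4
  rw [eLpNorm_eq_lintegral_rpow_enorm_toReal (by norm_num) (by norm_num)]
  have e4 : (4 : ℝ≥0∞).toReal = ((4 : ℕ) : ℝ) := by norm_num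
  rw [e4]
  simp_rw [ENNReal.rpow_natCast]
  rw [← ENNReal.rpow_natCast, ← ENNReal.rpow_mul]
  norm_num

theorem each_of_uniform {s : ℝ} (h : Uniform s) : Each s := by
  obtain ⟨C, hC⟩ := h
  exact fun φ h1 h2 => ⟨C, hC φ h1 h2⟩

theorem uniform_of_each {s : ℝ} (h : Each s) : Uniform s := by
  by_contra hU
  have hneg : ∀ C : ℝ, ∃ φ : ℝ → ℝ, Measurable φ ∧ (∀ x, φ x ∈ Icc (0 : ℝ) 1) ∧ ∃ N : ℕ, 1 ≤ N ∧
      ∃ a : ℤ → ℂ, ENNReal.ofReal (C * (N : ℝ) ^ s * l2 N a) < L4 (fun x => P N a (φ x) x) := by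
    intro C
    by_contra hcon
    apply hU
    refine ⟨C, fun φ h1 h2 N hN a => ?_⟩
    by_contra hlt
    exact hcon ⟨φ, h1, h2, N, hN, a, not_le.1 hlt⟩
  choose φ hφ1 hφ2 N hN a ha using fun j : ℕ => hneg (2 * ((j : ℝ) + 1) ^ 2)
  have hvol : ∀ j : ℕ, volume (Ioo (1 / ((j : ℝ) + 1)) (1 / (j : ℝ))) =
      ENNReal.ofReal (1 / (j : ℝ) - 1 / ((j : ℝ) + 1)) := fun j => Real.volume_Ioo
  choose ψ b hψ1 hψ2 hb hE using fun j : ℕ => piece (N j) (a j) (hφ1 j) (hφ2 j)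
    (E := Ioo (1 / ((j : ℝ) + 1)) (1 / (j : ℝ))) (by rw [hvol]; exact ENNReal.ofReal_ne_top)
  have hmeas : Measurable fun x : ℝ => ψ ⌊x⁻¹⌋₊ x := by
    have h1 : Measurable fun p : ℝ × ℕ => ψ p.2 p.1 :=
      measurable_from_prod_countable_left (fun j => hψ1 j)
    have h2 : Measurable fun x : ℝ => (x, ⌊x⁻¹⌋₊) :=
      measurable_id.prodMk (Nat.measurable_floor.comp measurable_inv)
    exact h1.comp h2
  obtain ⟨C, hC⟩ := h (fun x : ℝ => ψ ⌊x⁻¹⌋₊ x) hmeas (fun x => hψ2 _ _)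
  obtain ⟨j, hj⟩ := exists_nat_gt |C|
  have hj0 : (0 : ℝ) < j := lt_of_le_of_lt (abs_nonneg C) hj
  have hj1 : (1 : ℝ) ≤ j := by
    have : 0 < j := by exact_mod_cast hj0
    exact_mod_cast this
  obtain ⟨X, hX⟩ : ∃ X : ℝ, X = (N j : ℝ) ^ s * l2 (N j) (a j) := ⟨_, rfl⟩
  have hX0 : 0 ≤ X := by
    rw [hX]
    exact mul_nonneg (Real.rpow_nonneg (Nat.cast_nonneg _) _) (Real.sqrt_nonneg _)
  have hlb : l2 (N j) (b j) = l2 (N j) (a j) := by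
    unfold l2
    congr 1
    exact Finset.sum_congr rfl fun n _ => by rw [hb]
  have h1 : L4 (fun x => P (N j) (b j) (ψ ⌊x⁻¹⌋₊ x) x) ≤ ENNReal.ofReal (|C| * X) := by
    refine (hC (N j) (hN j) (b j)).trans (ENNReal.ofReal_le_ofReal ?_)
    rw [hlb, mul_assoc, ← hX]
    exact mul_le_mul_of_nonneg_right (le_abs_self C) hX0
  have h2 : ∫⁻ x in Ioo (-1 : ℝ) 1, ‖P (N j) (b j) (ψ ⌊x⁻¹⌋₊ x) x‖ₑ ^ 4 ≤
      ENNReal.ofReal ((|C| * X) ^ 4) := by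
    rw [← L4_pow, ENNReal.ofReal_pow (by positivity)]
    exact pow_le_pow_left' h1 4
  have h3 : ∫⁻ x in Ioo (1 / ((j : ℝ) + 1)) (1 / (j : ℝ)), ‖P (N j) (b j) (ψ j x) x‖ₑ ^ 4 ≤
      ∫⁻ x in Ioo (-1 : ℝ) 1, ‖P (N j) (b j) (ψ ⌊x⁻¹⌋₊ x) x‖ₑ ^ 4 := by
    have e1 : ∫⁻ x in Ioo (1 / ((j : ℝ) + 1)) (1 / (j : ℝ)), ‖P (N j) (b j) (ψ j x) x‖ₑ ^ 4 =
        ∫⁻ x in Ioo (1 / ((j : ℝ) + 1)) (1 / (j : ℝ)),
          ‖P (N j) (b j) (ψ ⌊x⁻¹⌋₊ x) x‖ₑ ^ 4 := by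
      refine setLIntegral_congr_fun measurableSet_Ioo fun x hx => ?_
      have hx0 : 0 < x := lt_trans (by positivity) hx.1
      have hfl : ⌊x⁻¹⌋₊ = j := by
        rw [Nat.floor_eq_iff (by positivity)]
        constructor
        · rw [le_inv_comm₀ hj0 hx0, ← one_div]
          exact hx.2.le
        · rw [inv_lt_comm₀ hx0 (by positivity), ← one_div]
          exact hx.1
      rw [hfl]
    rw [e1]
    refine lintegral_mono_set ?_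
    intro x hx
    have hx0 : 0 < x := lt_trans (by positivity) hx.1
    have hx1 : x < 1 := by
      refine lt_of_lt_of_le hx.2 ?_
      rw [div_le_one hj0]
      exact hj1
    exact ⟨by linarith, hx1⟩
  have h4 : ENNReal.ofReal ((2 * ((j : ℝ) + 1) ^ 2 * X) ^ 4) <
      ∫⁻ x in Ioo (-1 : ℝ) 1, ‖P (N j) (a j) (φ j x) x‖ₑ ^ 4 := by
    have e1 := ha j
    rw [mul_assoc, ← hX] at e1
    rw [← L4_pow, ENNReal.ofReal_pow (by positivity)]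
    exact ENNReal.pow_lt_pow_left (by norm_num) e1
  have hd : 0 < 1 / (j : ℝ) - 1 / ((j : ℝ) + 1) := by
    rw [sub_pos]
    exact one_div_lt_one_div_of_lt hj0 (by linarith)
  have h5 : ENNReal.ofReal (1 / (j : ℝ) - 1 / ((j : ℝ) + 1)) *
      ENNReal.ofReal ((2 * ((j : ℝ) + 1) ^ 2 * X) ^ 4) < 2 * ENNReal.ofReal ((|C| * X) ^ 4) := by
    have e1 := hE j
    rw [hvol] at e1
    calc _ < ENNReal.ofReal (1 / (j : ℝ) - 1 / ((j : ℝ) + 1)) *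
          ∫⁻ x in Ioo (-1 : ℝ) 1, ‖P (N j) (a j) (φ j x) x‖ₑ ^ 4 :=
          ENNReal.mul_lt_mul_right (by rw [ne_eq, ENNReal.ofReal_eq_zero]; linarith)
            ENNReal.ofReal_ne_top h4
      _ ≤ _ := e1
      _ ≤ 2 * ENNReal.ofReal ((|C| * X) ^ 4) := mul_le_mul_right (h3.trans h2) _
  have e2 : (2 : ℝ≥0∞) = ENNReal.ofReal 2 := by norm_num
  rw [e2, ← ENNReal.ofReal_mul hd.le, ← ENNReal.ofReal_mul (by norm_num)] at h5
  have h6 := (ENNReal.ofReal_lt_ofReal_iff_of_nonneg (by positivity)).1 h5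
  have h7 : 2 * (|C| * X) ^ 4 ≤ (1 / (j : ℝ) - 1 / ((j : ℝ) + 1)) *
      (2 * ((j : ℝ) + 1) ^ 2 * X) ^ 4 := by
    have e3 : 1 / (j : ℝ) - 1 / ((j : ℝ) + 1) = 1 / (j * (j + 1)) := by
      field_simp
      ring
    have e4 : |C| ^ 4 ≤ (j : ℝ) ^ 4 := pow_le_pow_left₀ (abs_nonneg C) hj.le 4
    have e5 : 2 * (j : ℝ) ^ 4 ≤ 1 / (j * (j + 1)) * (2 * ((j : ℝ) + 1) ^ 2) ^ 4 := by
      rw [one_div_mul_eq_div, le_div_iff₀ (by positivity)]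
      have f1 : (j : ℝ) ≤ j + 1 := by linarith
      have f2 : 2 * (j : ℝ) ^ 4 * (j * (j + 1)) ≤ 2 * (j + 1) ^ 4 * ((j + 1) * (j + 1)) := by
        gcongr
      have f3 : (1 : ℝ) ≤ (j + 1) ^ 2 := one_le_pow₀ (by linarith)
      have f4 : 2 * ((j : ℝ) + 1) ^ 4 * ((j + 1) * (j + 1)) = 2 * (j + 1) ^ 6 := by ring
      have f5 : (2 * ((j : ℝ) + 1) ^ 2) ^ 4 = 16 * ((j + 1) ^ 6 * (j + 1) ^ 2) := by ring
      have f6 : 0 ≤ ((j : ℝ) + 1) ^ 6 := by positivity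
      rw [f4] at f2
      rw [f5]
      nlinarith
    have e6 : 0 ≤ X ^ 4 := by positivity
    calc 2 * (|C| * X) ^ 4 = 2 * |C| ^ 4 * X ^ 4 := by ring
      _ ≤ 2 * (j : ℝ) ^ 4 * X ^ 4 := by gcongr
      _ ≤ (1 / (j * (j + 1)) * (2 * ((j : ℝ) + 1) ^ 2) ^ 4) * X ^ 4 :=
          mul_le_mul_of_nonneg_right e5 e6
      _ = _ := by rw [e3]; ring
  linarith

end Pool.Agent.UCQ
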